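import Mathlib
import Pool.Agent.Lib.Helper58.MZVGrowth

/-!
A lattice point lower bound for the dimension of the space of multiple zeta values.
-/

set_option autoImplicit false

namespace H98MZV

open Helper58.MZV Filter Topology Module

lemma Z_pow {n : ℕ} {x : ℝ} (hx : x ∈ Z n) (k : ℕ) : x ^ k ∈ Z (k * n) := by
  induction k with
  | zero => simpa using one_mem_Z
  | succ k ih =>
    rw [pow_succ, add_mul, one_mul]
    exact mul_mem_Z ih hx

lemma Z_prod {ι : Type} (s : Finset ι) {x : ι → ℝ} {n : ι → ℕ} (h : ∀ i ∈ s, x i ∈ Z (n i)) :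
    ∏ i ∈ s, x i ∈ Z (∑ i ∈ s, n i) := by
  classical
  induction s using Finset.induction_on with
  | empty => simpa using one_mem_Z
  | insert a s ha ih =>
    rw [Finset.prod_insert ha, Finset.sum_insert ha]
    exact mul_mem_Z (h a (Finset.mem_insert_self _ _)) (ih fun i hi => h i (Finset.mem_insert_of_mem hi))

/-- the field generated by normalised values -/
noncomputable abbrev EE {I : Type} (w : I → ℕ) (x : I → ℝ) : IntermediateField ℚ ℝ :=
  IntermediateField.adjoin ℚ (Set.range fun i => x i / Real.pi ^ (w i))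

theorem master {I J : Type} (w : I → ℕ) (x : I → ℝ) (hx : ∀ i, x i ∈ Z (w i))
    (v : J → ℕ) (y : J → ℝ) (hy : ∀ j, y j ∈ Z (v j))
    (hind : AlgebraicIndependent ℚ (fun i => x i / Real.pi ^ (w i)))
    (hli : LinearIndependent (EE w x) (fun j => y j / Real.pi ^ (v j)))
    (n : ℕ) (T : Finset ((I →₀ ℕ) × J))
    (hT : ∀ p ∈ T, ∃ a, 2 * a + v p.2 + p.1.sum (fun i k => k * w i) = n) :
    T.card ≤ finrank ℚ (Z n) := by
  classical
  set u : I → ℝ := fun i => x i / Real.pi ^ (w i) with hu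
  have hmemE : ∀ e : I →₀ ℕ, e.prod (fun i k => u i ^ k) ∈ EE w x := by
    intro e
    rw [Finsupp.prod]
    exact prod_mem fun i _ => pow_mem (IntermediateField.subset_adjoin ℚ (Set.range u) ⟨i, rfl⟩) _
  let b : (I →₀ ℕ) → EE w x := fun e => ⟨e.prod (fun i k => u i ^ k), hmemE e⟩
  have h4 : LinearIndependent ℚ (fun e : I →₀ ℕ => MvPolynomial.aeval u (MvPolynomial.monomial e (1:ℚ))) := by
    have h2 := (MvPolynomial.basisMonomials I ℚ).linearIndependent
    exact h2.map' (MvPolynomial.aeval u).toLinearMap (LinearMap.ker_eq_bot.mpr hind)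
  have hb : LinearIndependent ℚ b := by
    let f : EE w x →ₗ[ℚ] ℝ := (algebraMap (EE w x) ℝ).toAddMonoidHom.toRatLinearMap
    apply LinearIndependent.of_comp f
    have h5 : (f ∘ b) = (fun e : I →₀ ℕ => MvPolynomial.aeval u (MvPolynomial.monomial e (1:ℚ))) := by
      funext e
      rw [MvPolynomial.aeval_monomial, map_one, one_mul]
      rfl
    rw [h5]
    exact h4
  have hprod : LinearIndependent ℚ (fun p : (I →₀ ℕ) × J => b p.1 • (y p.2 / Real.pi ^ (v p.2))) :=
    linearIndependent_smul hb hli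
  have hmem : ∀ p ∈ T, b p.1 • (y p.2 / Real.pi ^ (v p.2)) ∈ sc n (Real.pi ^ n) := by
    intro p hp
    obtain ⟨a, ha⟩ := hT p hp
    rw [mem_sc]
    have h1 : (Real.pi ^ 2) ^ a * y p.2 * (∏ i ∈ p.1.support, x i ^ (p.1 i)) ∈
        Z (a * 2 + v p.2 + ∑ i ∈ p.1.support, p.1 i * w i) :=
      mul_mem_Z (mul_mem_Z (Z_pow pi_sq_mem a) (hy p.2)) (Z_prod _ fun i _ => Z_pow (hx i) _)
    have h2 : a * 2 + v p.2 + ∑ i ∈ p.1.support, p.1 i * w i = n := by
      rw [← ha, Finsupp.sum, mul_comm 2 a]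
    rw [h2] at h1
    have h3 : (b p.1 : ℝ) = ∏ i ∈ p.1.support, (x i ^ (p.1 i) / Real.pi ^ (p.1 i * w i)) := by
      simp only [b, Finsupp.prod, hu]
      refine Finset.prod_congr rfl fun i _ => ?_
      rw [div_pow, ← pow_mul, mul_comm (w i)]
    have h4 : Real.pi ^ n * (b p.1 • (y p.2 / Real.pi ^ (v p.2))) =
        (Real.pi ^ 2) ^ a * y p.2 * (∏ i ∈ p.1.support, x i ^ (p.1 i)) := by
      have h5 : b p.1 • (y p.2 / Real.pi ^ (v p.2)) = (b p.1 : ℝ) * (y p.2 / Real.pi ^ (v p.2)) := rfl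
      rw [h5, h3, Finset.prod_div_distrib, Finset.prod_pow_eq_pow_sum, ← h2, pow_add, pow_add,
        mul_comm a 2, pow_mul]
      have hp1 : Real.pi ^ (v p.2) ≠ 0 := pow_ne_zero _ Real.pi_ne_zero
      have hp2 : Real.pi ^ (∑ i ∈ p.1.support, p.1 i * w i) ≠ 0 := pow_ne_zero _ Real.pi_ne_zero
      field_simp
    rw [h4]
    exact h1
  rw [← finrank_sc n (pow_ne_zero n Real.pi_ne_zero)]
  have : Module.Finite ℚ (sc n (Real.pi ^ n)) := by
    infer_instance
  let g : T → sc n (Real.pi ^ n) := fun p => ⟨_, hmem p.1 p.2⟩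
  have hg : LinearIndependent ℚ g := by
    apply LinearIndependent.of_comp (sc n (Real.pi ^ n)).subtype
    exact hprod.comp (fun p : T => p.1) Subtype.val_injective
  have := hg.fintype_card_le_finrank
  simpa using this

end H98MZV
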