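import Mathlib
import Pool.Agent.Lib.H98MZV.Master

/-!
Growth of order `r` and finite generation.
-/

set_option autoImplicit false

namespace H98MZV

open Helper58.MZV Filter Topology Module

/-- doubled exponents in a box -/
noncomputable def dbl {r k : ℕ} (e : Fin r → Fin (k + 1)) : Fin r →₀ ℕ :=
  Finsupp.equivFunOnFinite.symm (fun i => 2 * (e i : ℕ))

lemma dbl_inj {r k : ℕ} : Function.Injective (dbl (r := r) (k := k)) := by
  intro a b hab
  ext i
  have := DFunLike.congr_fun hab i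
  simp only [dbl, Finsupp.equivFunOnFinite_symm_apply_apply] at this
  omega

lemma box_count {r : ℕ} (w : Fin r → ℕ) (x : Fin r → ℝ) (hx : ∀ i, x i ∈ Z (w i))
    (hind : AlgebraicIndependent ℚ (fun i => x i / Real.pi ^ (w i)))
    {M : ℕ} (v : Fin M → ℕ) (y : Fin M → ℝ) (hy : ∀ j, y j ∈ Z (v j))
    (hli : LinearIndependent (EE w x) (fun j => y j / Real.pi ^ (v j)))
    (n k V : ℕ) (hv : ∀ j, v j ≤ V) (hpar : ∀ j, v j % 2 = n % 2)
    (hk : 2 * (k * ∑ i, w i) + V ≤ n) :
    (k + 1) ^ r * M ≤ finrank ℚ (Z n) := by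
  classical
  let g : (Fin r → Fin (k + 1)) × Fin M → (Fin r →₀ ℕ) × Fin M := fun p => (dbl p.1, p.2)
  have hg : Function.Injective g := by
    rintro ⟨a, j⟩ ⟨b, l⟩ h
    simp only [g, Prod.mk.injEq] at h
    exact Prod.ext (dbl_inj h.1) h.2
  have h := master w x hx v y hy hind hli n (Finset.univ.image g) (by
    intro p hp
    obtain ⟨⟨e, j⟩, -, rfl⟩ := Finset.mem_image.mp hp
    have h1 : (dbl e).sum (fun i k => k * w i) = 2 * ∑ i, (e i : ℕ) * w i := by
      rw [Finsupp.sum_fintype _ _ (fun i => zero_mul _), Finset.mul_sum]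
      refine Finset.sum_congr rfl fun i _ => ?_
      simp only [dbl, Finsupp.equivFunOnFinite_symm_apply_apply]
      ring
    have h2 : ∑ i, (e i : ℕ) * w i ≤ k * ∑ i, w i := by
      rw [Finset.mul_sum]
      refine Finset.sum_le_sum fun i _ => Nat.mul_le_mul_right _ ?_
      have := (e i).2
      omega
    refine ⟨(n - v j - 2 * ∑ i, (e i : ℕ) * w i) / 2, ?_⟩
    show 2 * ((n - v j - 2 * ∑ i, (e i : ℕ) * w i) / 2) + v j + (dbl e).sum (fun i k => k * w i) = n
    rw [h1]
    have h3 := hv j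
    have h4 := hpar j
    omega)
  rw [Finset.card_image_of_injective _ hg] at h
  simpa using h

lemma li_shift {r : ℕ} (w : Fin r → ℕ) (x : Fin r → ℝ) {M : ℕ} (v : Fin M → ℕ) (y : Fin M → ℝ)
    (hli : LinearIndependent (EE w x) (fun j => y j / Real.pi ^ (v j))) :
    LinearIndependent (EE w x) (fun j => (y j * z3) / Real.pi ^ (v j + 3)) := by
  have hc : z3 / Real.pi ^ 3 ≠ 0 := div_ne_zero z3_pos.ne' (pow_ne_zero _ Real.pi_ne_zero)
  have h := hli.map' (LinearMap.mulLeft (EE w x) (z3 / Real.pi ^ 3))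
    (LinearMap.ker_eq_bot.mpr fun a b hab => mul_left_cancel₀ hc hab)
  have e : (fun j => (y j * z3) / Real.pi ^ (v j + 3)) =
      (LinearMap.mulLeft (EE w x) (z3 / Real.pi ^ 3)) ∘ (fun j => y j / Real.pi ^ (v j)) := by
    funext j
    show (y j * z3) / Real.pi ^ (v j + 3) = z3 / Real.pi ^ 3 * (y j / Real.pi ^ (v j))
    rw [pow_add, div_mul_div_comm]
    ring
  rw [e]
  exact h

theorem growthM {r : ℕ} (w : Fin r → ℕ) (x : Fin r → ℝ) (hx : ∀ i, x i ∈ Z (w i))
    (hind : AlgebraicIndependent ℚ (fun i => x i / Real.pi ^ (w i)))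
    {M : ℕ} (v : Fin M → ℕ) (hv : ∀ j, v j % 2 = 0) (y : Fin M → ℝ) (hy : ∀ j, y j ∈ Z (v j))
    (hli : LinearIndependent (EE w x) (fun j => y j / Real.pi ^ (v j))) :
    ∀ᶠ n : ℕ in atTop, (M : ℝ) * ((1 / (4 * (((∑ i, w i) + 1 : ℕ) : ℝ))) ^ r * (n : ℝ) ^ r) ≤
      (finrank ℚ (Z n) : ℝ) := by
  set W : ℕ := (∑ i, w i) + 1 with hW
  set V : ℕ := (∑ j, v j) + 3 with hV
  have hvV : ∀ j, v j + 3 ≤ V := by
    intro j
    have := Finset.single_le_sum (f := v) (fun i _ => Nat.zero_le _) (Finset.mem_univ j)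
    omega
  filter_upwards [eventually_ge_atTop (2 * V)] with n hn
  set k : ℕ := (n - V) / (2 * W) with hk
  have hW0 : 0 < W := by omega
  have hkW : 2 * (k * W) ≤ n - V := by
    have := Nat.div_mul_le_self (n - V) (2 * W)
    calc 2 * (k * W) = k * (2 * W) := by ring
      _ ≤ n - V := this
  have hkW' : 2 * (k * ∑ i, w i) + V ≤ n := by
    have : k * ∑ i, w i ≤ k * W := Nat.mul_le_mul_left _ (by omega)
    omega
  have hle : (k + 1) ^ r * M ≤ finrank ℚ (Z n) := by
    rcases Nat.mod_two_eq_zero_or_one n with hp | hp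
    · exact box_count w x hx hind v y hy hli n k V (fun j => by have := hvV j; omega)
        (fun j => by rw [hv j, hp]) hkW'
    · exact box_count w x hx hind (fun j => v j + 3) (fun j => y j * z3)
        (fun j => mul_mem_Z (hy j) z3_mem) (li_shift w x v y hli) n k V hvV
        (fun j => by have := hv j; show (v j + 3) % 2 = n % 2; omega) hkW'
  have hk1 : (n : ℝ) / (4 * W) ≤ k + 1 := by
    have h1 : n - V < (k + 1) * (2 * W) := by
      have := Nat.lt_div_mul_add (a := n - V) (b := 2 * W) (by omega)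
      calc n - V < (n - V) / (2 * W) * (2 * W) + 2 * W := this
        _ = (k + 1) * (2 * W) := by ring
    have h2 : ((n - V : ℕ) : ℝ) < (k + 1) * (2 * W) := by exact_mod_cast h1
    rw [Nat.cast_sub (by omega)] at h2
    have h3 : (2:ℝ) * V ≤ n := by exact_mod_cast hn
    rw [div_le_iff₀ (by positivity)]
    nlinarith
  calc (M : ℝ) * ((1 / (4 * (W:ℝ))) ^ r * (n : ℝ) ^ r) = ((n : ℝ) / (4 * W)) ^ r * M := by
        rw [← mul_pow, mul_comm]; congr 2; ring
    _ ≤ ((k:ℝ) + 1) ^ r * M := by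
        apply mul_le_mul_of_nonneg_right _ (Nat.cast_nonneg M)
        exact pow_le_pow_left₀ (by positivity) hk1 r
    _ = (((k + 1) ^ r * M : ℕ) : ℝ) := by push_cast; ring
    _ ≤ (finrank ℚ (Z n) : ℝ) := by exact_mod_cast hle

/-- normalised values -/
def NV : Set ℝ := {y | ∃ w, ∃ x ∈ Z w, y = x / Real.pi ^ w}

/-- normalised values of even weight -/
def NVe : Set ℝ := {y | ∃ w, w % 2 = 0 ∧ ∃ x ∈ Z w, y = x / Real.pi ^ w}

lemma one_mem_NV : (1:ℝ) ∈ NV := ⟨0, 1, one_mem_Z, by simp⟩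

lemma mul_mem_NV {a b : ℝ} (ha : a ∈ NV) (hb : b ∈ NV) : a * b ∈ NV := by
  obtain ⟨w, x, hx, rfl⟩ := ha
  obtain ⟨v, y, hy, rfl⟩ := hb
  exact ⟨w + v, x * y, mul_mem_Z hx hy, by rw [pow_add, div_mul_div_comm]⟩

theorem tendsto_or_finite {r : ℕ} (w : Fin r → ℕ) (x : Fin r → ℝ) (hx : ∀ i, x i ∈ Z (w i))
    (hind : AlgebraicIndependent ℚ (fun i => x i / Real.pi ^ (w i))) :
    Tendsto (fun n : ℕ => (finrank ℚ (Z n) : ℝ) / (n : ℝ) ^ r) atTop atTop ∨
      Module.Finite (EE w x) (Submodule.span (EE w x) NVe) := by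
  classical
  by_cases hfin : Module.Finite (EE w x) (Submodule.span (EE w x) NVe)
  · exact Or.inr hfin
  left
  obtain ⟨b, hb1, hb2, hb3⟩ := exists_linearIndependent (EE w x) NVe
  have hbinf : b.Infinite := by
    intro hbf
    apply hfin
    rw [← hb2]
    exact Module.Finite.span_of_finite (EE w x) hbf
  have hc0 : (0:ℝ) < (1 / (4 * (((∑ i, w i) + 1 : ℕ) : ℝ))) ^ r := by positivity
  rw [tendsto_atTop]
  intro B
  obtain ⟨M, hM⟩ := exists_nat_ge (B / (1 / (4 * (((∑ i, w i) + 1 : ℕ) : ℝ))) ^ r)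
  obtain ⟨t, htb, htc⟩ := hbinf.exists_subset_card_eq M
  have e : Fin M ≃ t := (Fin.castOrderIso htc.symm).toEquiv.trans t.equivFin.symm
  have hmem : ∀ j : Fin M, ∃ v : ℕ, v % 2 = 0 ∧ ∃ y ∈ Z v, ((e j : t) : ℝ) = y / Real.pi ^ v :=
    fun j => hb1 (htb (e j).2)
  choose v hv y hy hvy using hmem
  have hli : LinearIndependent (EE w x) (fun j => y j / Real.pi ^ (v j)) := by
    have h1 : (fun j => y j / Real.pi ^ (v j)) = (Subtype.val : b → ℝ) ∘
        (fun j : Fin M => (⟨(e j : ℝ), htb (e j).2⟩ : b)) := by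
      funext j
      exact (hvy j).symm
    rw [h1]
    apply hb3.comp
    intro i j hij
    apply e.injective
    apply Subtype.ext
    exact congrArg (fun z : b => (z : ℝ)) hij
  filter_upwards [growthM w x hx hind v hv y hy hli, eventually_ge_atTop 1] with n hn hn1
  have hn0 : (0:ℝ) < (n:ℝ) ^ r := by
    have : (0:ℝ) < n := by exact_mod_cast hn1
    positivity
  rw [le_div_iff₀ hn0]
  refine le_trans ?_ hn
  rw [← mul_assoc]
  apply mul_le_mul_of_nonneg_right _ hn0.le
  rwa [div_le_iff₀ hc0] at hM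

lemma NV_span_finite {E : IntermediateField ℚ ℝ} (h : Module.Finite E (Submodule.span E NVe)) :
    Module.Finite E (Submodule.span E NV) := by
  set θ : ℝ := z3 / Real.pi ^ 3 with hθ
  have hθ0 : θ ≠ 0 := div_ne_zero z3_pos.ne' (pow_ne_zero _ Real.pi_ne_zero)
  have hle : Submodule.span E NV ≤
      Submodule.span E NVe ⊔ (Submodule.span E NVe).map (LinearMap.mulLeft E θ⁻¹) := by
    rw [Submodule.span_le]
    rintro _ ⟨w, x, hx, rfl⟩
    rcases Nat.mod_two_eq_zero_or_one w with hp | hp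
    · exact Submodule.mem_sup_left (Submodule.subset_span ⟨w, hp, x, hx, rfl⟩)
    · apply Submodule.mem_sup_right
      refine ⟨(z3 * x) / Real.pi ^ (3 + w), Submodule.subset_span
        ⟨3 + w, by omega, z3 * x, mul_mem_Z z3_mem hx, rfl⟩, ?_⟩
      show θ⁻¹ * ((z3 * x) / Real.pi ^ (3 + w)) = x / Real.pi ^ w
      rw [pow_add, mul_div_mul_comm, ← mul_assoc, ← hθ, inv_mul_cancel₀ hθ0, one_mul]
  have h2 : Module.Finite E ((Submodule.span E NVe).map (LinearMap.mulLeft E θ⁻¹)) := by
    rw [Module.Finite.iff_fg] at h ⊢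
    exact h.map _
  exact Submodule.finiteDimensional_of_le hle

/-- the field generated by all normalised values -/
noncomputable abbrev FF : IntermediateField ℚ ℝ := IntermediateField.adjoin ℚ NV

lemma EE_le {r : ℕ} (w : Fin r → ℕ) (x : Fin r → ℝ) (hx : ∀ i, x i ∈ Z (w i)) : EE w x ≤ FF := by
  apply IntermediateField.adjoin.mono
  rintro _ ⟨i, rfl⟩
  exact ⟨w i, x i, hx i, rfl⟩

theorem field_finite {E : IntermediateField ℚ ℝ} (hE : E ≤ FF)
    (h : Module.Finite E (Submodule.span E NV)) :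
    FiniteDimensional E (IntermediateField.extendScalars hE) := by
  have hclos : (Submonoid.closure NV : Set ℝ) = NV := by
    apply le_antisymm
    · intro z hz
      refine Submonoid.closure_induction (motive := fun z _ => z ∈ NV) (fun _ h => h) one_mem_NV
        (fun a b _ _ ha hb => mul_mem_NV ha hb) hz
    · exact Submonoid.subset_closure
  have hspan : Subalgebra.toSubmodule (Algebra.adjoin E NV) = Submodule.span E NV := by
    rw [Algebra.adjoin_eq_span, hclos]
  have hfg : (Subalgebra.toSubmodule (Algebra.adjoin E NV)).FG := by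
    rw [hspan]
    exact Module.Finite.iff_fg.mp h
  have halg : ∀ z ∈ NV, IsAlgebraic E z := fun z hz =>
    (IsIntegral.of_mem_of_fg (Algebra.adjoin E NV) hfg z (Algebra.subset_adjoin hz)).isAlgebraic
  have hsub : (IntermediateField.adjoin E NV).toSubalgebra = Algebra.adjoin E NV :=
    IntermediateField.adjoin_toSubalgebra_of_isAlgebraic halg
  have hfin : Module.Finite E (IntermediateField.adjoin E NV) := by
    have h1 : Module.Finite E (Algebra.adjoin E NV) := Module.Finite.iff_fg.mpr hfg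
    rw [← hsub] at h1
    exact h1
  have hle : IntermediateField.extendScalars hE ≤ IntermediateField.adjoin E NV := by
    intro z hz
    have h1 : z ∈ FF := hz
    have h2 : FF ≤ (IntermediateField.adjoin E NV).restrictScalars ℚ := by
      rw [IntermediateField.adjoin_le_iff]
      exact IntermediateField.subset_adjoin E NV
    exact h2 h1
  exact Module.Finite.of_injective (IntermediateField.inclusion hle).toLinearMap
    (IntermediateField.inclusion hle).injective

theorem order_dichotomy {r : ℕ} (w : Fin r → ℕ) (x : Fin r → ℝ) (hx : ∀ i, x i ∈ Z (w i))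
    (hind : AlgebraicIndependent ℚ (fun i => x i / Real.pi ^ (w i))) :
    Tendsto (fun n : ℕ => (finrank ℚ (Z n) : ℝ) / (n : ℝ) ^ r) atTop atTop ∨
      FiniteDimensional (EE w x) (IntermediateField.extendScalars (EE_le w x hx)) :=
  (tendsto_or_finite w x hx hind).imp_right fun h => field_finite _ (NV_span_finite h)

end H98MZV
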