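import Mathlib
import Pool.Agent.Lib.H98MZV.Growth

/-!
The unconditional trichotomy for the growth order.
-/

set_option autoImplicit false

namespace H98MZV

open Helper58.MZV Filter Topology Module

/-- there are `s` algebraically independent normalised values -/
def Ind (s : ℕ) : Prop := ∃ (w : Fin s → ℕ) (x : Fin s → ℝ), (∀ i, x i ∈ Z (w i)) ∧
  AlgebraicIndependent ℚ (fun i => x i / Real.pi ^ (w i))

lemma ind_zero : Ind 0 := ⟨fun i => i.elim0, fun i => i.elim0, fun i => i.elim0,
  algebraicIndependent_empty_type⟩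

lemma algebraic_of_not_ind {s : ℕ} (h : ¬ Ind (s + 1)) (w : Fin s → ℕ) (x : Fin s → ℝ)
    (hx : ∀ i, x i ∈ Z (w i)) (hind : AlgebraicIndependent ℚ (fun i => x i / Real.pi ^ (w i)))
    {z : ℝ} (hz : z ∈ NV) : IsAlgebraic (EE w x) z := by
  have h1 : IsAlgebraic (Algebra.adjoin ℚ (Set.range fun i => x i / Real.pi ^ (w i))) z := by
    by_contra hcon
    apply h
    obtain ⟨v, y, hy, rfl⟩ := hz
    have h2 := (hind.option_iff_transcendental (y / Real.pi ^ v)).mpr hcon
    let e : Fin (s + 1) ≃ Option (Fin s) := finSuccEquiv s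
    refine ⟨fun i => (e i).elim v w, fun i => (e i).elim y x, ?_, ?_⟩
    · intro i
      show (e i).elim y x ∈ Z ((e i).elim v w)
      rcases e i with _ | j
      · exact hy
      · exact hx j
    · have h3 := (algebraicIndependent_equiv e).mpr h2
      have h4 : (fun i => (e i).elim y x / Real.pi ^ ((e i).elim v w)) =
          (fun o : Option (Fin s) => o.elim (y / Real.pi ^ v) (fun i => x i / Real.pi ^ (w i))) ∘ e := by
        funext i
        show (e i).elim y x / Real.pi ^ ((e i).elim v w) =
          (e i).elim (y / Real.pi ^ v) (fun i => x i / Real.pi ^ (w i))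
        rcases e i with _ | j
        · rfl
        · rfl
      exact h4 ▸ h3
  exact h1.tower_top_of_subalgebra_le (IntermediateField.algebra_adjoin_le_adjoin ℚ _)

lemma extend_le {E : IntermediateField ℚ ℝ} (hE : E ≤ FF) :
    IntermediateField.extendScalars hE ≤ IntermediateField.adjoin E NV := by
  intro z hz
  have h1 : z ∈ FF := hz
  have h2 : FF ≤ (IntermediateField.adjoin E NV).restrictScalars ℚ := by
    rw [IntermediateField.adjoin_le_iff]
    exact IntermediateField.subset_adjoin E NV
  exact h2 h1

theorem trichotomy (r : ℕ) :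
    Tendsto (fun n : ℕ => (finrank ℚ (Z n) : ℝ) / (n : ℝ) ^ r) atTop atTop ∨
    ∃ (s : ℕ) (w : Fin s → ℕ) (x : Fin s → ℝ), s ≤ r ∧ (∀ i, x i ∈ Z (w i)) ∧
      AlgebraicIndependent ℚ (fun i => x i / Real.pi ^ (w i)) ∧
      ∃ h : EE w x ≤ FF, Algebra.IsAlgebraic (EE w x) (IntermediateField.extendScalars h) ∧
        (s = r → FiniteDimensional (EE w x) (IntermediateField.extendScalars h)) := by
  classical
  by_cases hr : Ind (r + 1)
  · left
    obtain ⟨w, x, hx, hind⟩ := hr
    obtain ⟨c, hc, hev⟩ := growth w x hx hind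
    have h1 : Tendsto (fun n : ℕ => c * (n : ℝ)) atTop atTop :=
      Tendsto.const_mul_atTop hc tendsto_natCast_atTop_atTop
    refine tendsto_atTop_mono' atTop ?_ h1
    filter_upwards [hev, eventually_ge_atTop 1] with n hn hn1
    have hn0 : (0:ℝ) < (n:ℝ) ^ r := by
      have : (0:ℝ) < n := by exact_mod_cast hn1
      positivity
    rw [le_div_iff₀ hn0]
    calc c * (n : ℝ) * (n : ℝ) ^ r = c * (n : ℝ) ^ (r + 1) := by rw [pow_succ]; ring
      _ ≤ _ := hn
  · -- the largest `s ≤ r` with `Ind s`
    obtain ⟨s, hsr, hs, hs1⟩ : ∃ s, s ≤ r ∧ Ind s ∧ ¬ Ind (s + 1) := by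
      refine ⟨Nat.findGreatest Ind r, Nat.findGreatest_le r, ?_, ?_⟩
      · exact Nat.findGreatest_spec (P := Ind) (Nat.zero_le r) ind_zero
      · intro hcon
        rcases Nat.lt_or_ge (Nat.findGreatest Ind r) r with hlt | hge
        · have := Nat.le_findGreatest (P := Ind) (n := r) (m := Nat.findGreatest Ind r + 1) hlt hcon
          omega
        · have e : Nat.findGreatest Ind r = r := le_antisymm (Nat.findGreatest_le r) hge
          rw [e] at hcon
          exact hr hcon
    obtain ⟨w, x, hx, hind⟩ := hs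
    have halg : Algebra.IsAlgebraic (EE w x) (IntermediateField.extendScalars (EE_le w x hx)) := by
      have h1 : Algebra.IsAlgebraic (EE w x) (IntermediateField.adjoin (EE w x) NV) :=
        IntermediateField.isAlgebraic_adjoin fun z hz =>
          (algebraic_of_not_ind hs1 w x hx hind hz).isIntegral
      exact Algebra.IsAlgebraic.of_injective
        (IntermediateField.inclusion (extend_le (EE_le w x hx)))
        (IntermediateField.inclusion (extend_le (EE_le w x hx))).injective
    by_cases hsr' : s = r
    · subst hsr'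
      rcases order_dichotomy w x hx hind with h | h
      · exact Or.inl h
      · exact Or.inr ⟨s, w, x, le_rfl, hx, hind, EE_le w x hx, halg, fun _ => h⟩
    · exact Or.inr ⟨s, w, x, hsr, hx, hind, EE_le w x hx, halg, fun h => absurd h hsr'⟩

end H98MZV
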